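import Mathlib

/-!
Dense relations whose cells are partitioned into linearly many `antisymmetric` partial injections have density at
most `1/2 + o(1)`. One-sided energy increment: blocks of rows, single columns.
-/

set_option autoImplicit false
set_option linter.unusedSectionVars false

open Finset
open scoped Classical

namespace Pool.Agent.H36.CF

variable {X Y ι : Type} [Fintype X] [Fintype Y] [Fintype ι]

/-- the colour classes of the relation `E` are partial injections, and two cells of one colour never have both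
cross cells in `E` -/
structure Good (E : X → Y → Prop) (f : X → Y → ι) : Prop where
  inj1 : ∀ x y y', E x y → E x y' → f x y = f x y' → y = y'
  inj2 : ∀ x x' y, E x y → E x' y → f x y = f x' y → x = x'
  anti : ∀ x x' y y', E x y → E x' y' → f x y = f x' y' → x ≠ x' → ¬ (E x y' ∧ E x' y)

/-- number of neighbours of `y` in `I` -/
noncomputable def dg (E : X → Y → Prop) (I : Finset X) (y : Y) : ℝ := ((I.filter fun x => E x y).card : ℝ)

/-- the cells of colour `c` in the rows `I` -/
noncomputable def MM (E : X → Y → Prop) (f : X → Y → ι) (I : Finset X) (c : ι) : Finset (X × Y) :=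
  univ.filter fun p => p.1 ∈ I ∧ E p.1 p.2 ∧ f p.1 p.2 = c

noncomputable def SS (E : X → Y → Prop) (f : X → Y → ι) (I : Finset X) (c : ι) : Finset X :=
  (MM E f I c).image Prod.fst

noncomputable def TT (E : X → Y → Prop) (f : X → Y → ι) (I : Finset X) (c : ι) : Finset Y :=
  (MM E f I c).image Prod.snd

variable {E : X → Y → Prop} {f : X → Y → ι}

theorem mem_MM {I : Finset X} {c : ι} {p : X × Y} :
    p ∈ MM E f I c ↔ p.1 ∈ I ∧ E p.1 p.2 ∧ f p.1 p.2 = c := by
  simp [MM]

theorem injfst (h : Good E f) (I : Finset X) (c : ι) : Set.InjOn Prod.fst (MM E f I c : Set (X × Y)) := by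
  rintro ⟨x, y⟩ hp ⟨x', y'⟩ hq e
  have h1 := mem_MM.1 (mem_coe.1 hp)
  have h2 := mem_MM.1 (mem_coe.1 hq)
  dsimp only at e h1 h2
  subst e
  rw [h.inj1 x y y' h1.2.1 h2.2.1 (h1.2.2.trans h2.2.2.symm)]

theorem injsnd (h : Good E f) (I : Finset X) (c : ι) : Set.InjOn Prod.snd (MM E f I c : Set (X × Y)) := by
  rintro ⟨x, y⟩ hp ⟨x', y'⟩ hq e
  have h1 := mem_MM.1 (mem_coe.1 hp)
  have h2 := mem_MM.1 (mem_coe.1 hq)
  dsimp only at e h1 h2
  subst e
  rw [h.inj2 x x' y h1.2.1 h2.2.1 (h1.2.2.trans h2.2.2.symm)]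

theorem card_SS (h : Good E f) (I : Finset X) (c : ι) : (SS E f I c).card = (MM E f I c).card :=
  card_image_of_injOn (injfst h I c)

theorem card_TT (h : Good E f) (I : Finset X) (c : ι) : (TT E f I c).card = (MM E f I c).card :=
  card_image_of_injOn (injsnd h I c)

theorem SS_subset (I : Finset X) (c : ι) : SS E f I c ⊆ I := by
  intro x hx
  obtain ⟨p, hp, rfl⟩ := mem_image.1 hx
  exact (mem_MM.1 hp).1

theorem card_TT_le (h : Good E f) (I : Finset X) (c : ι) : (TT E f I c).card ≤ I.card := by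
  rw [card_TT h, ← card_SS h]
  exact card_le_card (SS_subset I c)

/-- every column `y` is met by as many colours as it has neighbours in `I` -/
theorem sum_TT (h : Good E f) (I : Finset X) (g : Y → ℝ) :
    ∑ c : ι, ∑ y ∈ TT E f I c, g y = ∑ y : Y, g y * dg E I y := by
  have h1 : ∀ c : ι, ∑ y ∈ TT E f I c, g y = ∑ y : Y, if y ∈ TT E f I c then g y else 0 := by
    intro c
    rw [← sum_filter]
    congr 1
    ext y
    simp
  simp_rw [h1]
  rw [sum_comm]
  refine sum_congr rfl fun y _ => ?_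
  rw [← sum_filter, sum_const, nsmul_eq_mul, mul_comm]
  congr 1
  unfold dg
  congr 1
  have h2 : (univ.filter fun c => y ∈ TT E f I c) = (I.filter fun x => E x y).image fun x => f x y := by
    ext c
    simp only [mem_filter, mem_univ, true_and, mem_image, TT, mem_MM, Prod.exists]
    constructor
    · rintro ⟨x, y', ⟨h1, h2, h3⟩, h4⟩
      subst h4
      exact ⟨x, ⟨h1, h2⟩, h3⟩
    · rintro ⟨x, ⟨h1, h2⟩, h3⟩
      exact ⟨x, y, ⟨h1, h2, h3⟩, rfl⟩
  rw [h2, card_image_of_injOn]
  intro x hx x' hx' e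
  have h3 := mem_filter.1 (mem_coe.1 hx)
  have h4 := mem_filter.1 (mem_coe.1 hx')
  exact h.inj2 x x' y h3.2 h4.2 e

/-- the density of `E` between the two sides of a colour class is at most about `1/2` -/
theorem half (h : Good E f) (I : Finset X) (c : ι) :
    2 * ∑ y ∈ TT E f I c, dg E (SS E f I c) y ≤
      ((MM E f I c).card : ℝ) * ((MM E f I c).card + 1) := by
  set M := MM E f I c with hM
  have e1 : ∑ y ∈ TT E f I c, dg E (SS E f I c) y =
      ∑ v ∈ M, ((M.filter fun u => E u.1 v.2).card : ℝ) := by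
    unfold TT
    rw [sum_image (injsnd h I c)]
    refine sum_congr rfl fun v _ => ?_
    unfold dg SS
    rw [filter_image, card_image_of_injOn]
    exact (injfst h I c).mono (by
      intro u hu
      exact mem_coe.2 (mem_filter.1 (mem_coe.1 hu)).1)
  set A := (M ×ˢ M).filter fun w => E w.2.1 w.1.2 with hA
  set B := (M ×ˢ M).filter fun w => E w.1.1 w.2.2 with hB
  have cA : A.card = ∑ v ∈ M, (M.filter fun u => E u.1 v.2).card := by
    rw [hA, card_filter, sum_product]
    refine sum_congr rfl fun v _ => ?_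
    rw [card_filter]
  have cB : B.card = A.card := by
    refine card_bij (fun w _ => (w.2, w.1)) ?_ ?_ ?_
    · rintro ⟨u, v⟩ hw
      simp only [hB, hA, mem_filter, mem_product] at hw ⊢
      exact ⟨⟨hw.1.2, hw.1.1⟩, hw.2⟩
    · rintro ⟨u, v⟩ _ ⟨u', v'⟩ _ e
      simp only [Prod.mk.injEq] at e
      rw [e.1, e.2]
    · rintro ⟨u, v⟩ hw
      refine ⟨(v, u), ?_, rfl⟩
      simp only [hB, hA, mem_filter, mem_product] at hw ⊢
      exact ⟨⟨hw.1.2, hw.1.1⟩, hw.2⟩
  have cI : (A ∩ B).card ≤ M.card := by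
    have : A ∩ B ⊆ M.image fun u => (u, u) := by
      rintro ⟨u, v⟩ hw
      rw [mem_inter, hA, hB, mem_filter, mem_filter, mem_product] at hw
      obtain ⟨⟨⟨hu, hv⟩, h1⟩, _, h2⟩ := hw
      dsimp only at hu hv h1 h2
      have hu' := mem_MM.1 hu
      have hv' := mem_MM.1 hv
      by_cases huv : u.1 = v.1
      · have := injfst h I c (mem_coe.2 hu) (mem_coe.2 hv) huv
        subst this
        exact mem_image.2 ⟨u, hu, rfl⟩
      · exact absurd ⟨h2, h1⟩ (h.anti u.1 v.1 u.2 v.2 hu'.2.1 hv'.2.1 (hu'.2.2.trans hv'.2.2.symm) huv)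
    exact (card_le_card this).trans card_image_le
  have cU : (A ∪ B).card ≤ M.card * M.card := by
    rw [← card_product]
    exact card_le_card (union_subset (filter_subset _ _) (filter_subset _ _))
  have key : A.card + B.card ≤ M.card * M.card + M.card := by
    rw [← card_union_add_card_inter]
    exact Nat.add_le_add cU cI
  have e2 : ∑ v ∈ M, ((M.filter fun u => E u.1 v.2).card : ℝ) = (A.card : ℝ) := by
    rw [cA]; push_cast; rfl
  rw [e1, e2]
  have key' : (A.card : ℝ) + (B.card : ℝ) ≤ (M.card : ℝ) * M.card + M.card := by exact_mod_cast key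
  rw [cB] at key'
  nlinarith [key']

/-- relative degree -/
noncomputable def dd (E : X → Y → Prop) (I : Finset X) (y : Y) : ℝ := dg E I y / I.card

theorem dg_nonneg (I : Finset X) (y : Y) : 0 ≤ dg E I y := Nat.cast_nonneg _

theorem dg_le (I : Finset X) (y : Y) : dg E I y ≤ I.card := by
  unfold dg
  exact_mod_cast card_filter_le _ _

theorem dd_nonneg (I : Finset X) (y : Y) : 0 ≤ dd E I y := div_nonneg (dg_nonneg _ _) (Nat.cast_nonneg _)

theorem dd_le_one (I : Finset X) (y : Y) : dd E I y ≤ 1 := by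
  unfold dd
  exact div_le_one_of_le₀ (dg_le I y) (Nat.cast_nonneg _)

theorem card_mul_dd (I : Finset X) (y : Y) : (I.card : ℝ) * dd E I y = dg E I y := by
  unfold dd
  rcases Nat.eq_zero_or_pos I.card with h0 | h0
  · have h1 : dg E I y ≤ I.card := dg_le I y
    have h2 : 0 ≤ dg E I y := dg_nonneg I y
    rw [h0] at h1 ⊢
    push_cast at h1 ⊢
    have : dg E I y = 0 := le_antisymm h1 h2
    rw [this]; simp
  · field_simp

/-- the potential -/
noncomputable def Ph (E : X → Y → Prop) (I : Finset X) : ℝ := ∑ y : Y, (dd E I y ^ 2 - dd E I y / 2)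

theorem Ph_le (I : Finset X) : Ph E I ≤ (Fintype.card Y : ℝ) / 2 := by
  unfold Ph
  calc ∑ y : Y, (dd E I y ^ 2 - dd E I y / 2) ≤ ∑ _y : Y, (1 / 2 : ℝ) := by
        refine sum_le_sum fun y _ => ?_
        nlinarith [dd_nonneg (E := E) I y, dd_le_one (E := E) I y]
    _ = (Fintype.card Y : ℝ) / 2 := by
        rw [sum_const, card_univ, nsmul_eq_mul]; ring

/-- the total gain of all colours -/
theorem gain (h : Good E f) (I : Finset X) :
    (I.card : ℝ) * Ph E I - (Fintype.card ι : ℝ) / 2 ≤
      ∑ c : ι, ∑ y ∈ TT E f I c, (dd E I y - dd E (SS E f I c) y) := by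
  have h1 : ∑ c : ι, ∑ y ∈ TT E f I c, dd E I y = (I.card : ℝ) * ∑ y : Y, dd E I y ^ 2 := by
    rw [sum_TT h I, mul_sum]
    refine sum_congr rfl fun y _ => ?_
    rw [← card_mul_dd]; ring
  have h2 : ∀ c : ι, ∑ y ∈ TT E f I c, dd E (SS E f I c) y ≤ ((TT E f I c).card + 1) / 2 := by
    intro c
    have h3 := half h I c
    rw [card_TT h]
    rcases Nat.eq_zero_or_pos (MM E f I c).card with h0 | h0
    · have : TT E f I c = ∅ := by
        rw [← card_eq_zero, card_TT h, h0]
      rw [this, sum_empty, h0]; norm_num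
    · have h0' : (0 : ℝ) < (MM E f I c).card := by exact_mod_cast h0
      have h4 : ∑ y ∈ TT E f I c, dd E (SS E f I c) y =
          (∑ y ∈ TT E f I c, dg E (SS E f I c) y) / (MM E f I c).card := by
        unfold dd
        rw [sum_div, card_SS h]
      rw [h4, div_le_div_iff₀ h0' (by norm_num)]
      nlinarith [h3]
  have h5 : ∑ c : ι, (((TT E f I c).card : ℝ) + 1) / 2 =
      (I.card : ℝ) * (∑ y : Y, dd E I y) / 2 + (Fintype.card ι : ℝ) / 2 := by
    have h6 : ∑ c : ι, ((TT E f I c).card : ℝ) = (I.card : ℝ) * ∑ y : Y, dd E I y := by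
      have := sum_TT h I (fun _ => (1 : ℝ))
      simp only [sum_const, nsmul_eq_mul, mul_one, one_mul] at this
      rw [this, mul_sum]
      exact sum_congr rfl fun y _ => (card_mul_dd I y).symm
    rw [← sum_div, sum_add_distrib, h6, sum_const, card_univ, nsmul_eq_mul]
    ring
  simp_rw [sum_sub_distrib]
  rw [h1]
  have h7 : ∑ c : ι, ∑ y ∈ TT E f I c, dd E (SS E f I c) y ≤
      (I.card : ℝ) * (∑ y : Y, dd E I y) / 2 + (Fintype.card ι : ℝ) / 2 := by
    rw [← h5]
    exact sum_le_sum fun c _ => h2 c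
  have h8 : (I.card : ℝ) * Ph E I =
      (I.card : ℝ) * (∑ y : Y, dd E I y ^ 2) - (I.card : ℝ) * (∑ y : Y, dd E I y) / 2 := by
    unfold Ph
    rw [sum_sub_distrib, ← sum_div]; ring
  linarith

end Pool.Agent.H36.CF
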