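import Pool.Agent.H36.CF.Main

/-! Coloured graphs all of whose 4-cycles are rainbow: density at most `1/2 + o(1)` between linear sets. -/

set_option autoImplicit false
set_option linter.unusedSectionVars false

open Finset
open scoped Classical

namespace Pool.Agent.H36.CF

/-- in every copy of the 4-cycle in `G` the four edges have different colours -/
def AllRainbow {V : Type} (G : SimpleGraph V) (f : Sym2 V → ℕ) : Prop :=
  ∀ a b c d : V, a ≠ c → b ≠ d → G.Adj a b → G.Adj b c → G.Adj c d → G.Adj d a →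
    [f s(a, b), f s(b, c), f s(c, d), f s(d, a)].Nodup

theorem opposite {V : Type} {G : SimpleGraph V} {f : Sym2 V → ℕ} (h : AllRainbow G f) {a b c d : V}
    (h1 : a ≠ c) (h2 : b ≠ d) (h3 : G.Adj a b) (h4 : G.Adj b c) (h5 : G.Adj c d) (h6 : G.Adj d a) :
    f s(a, b) ≠ f s(c, d) := by
  have := h a b c d h1 h2 h3 h4 h5 h6
  simp only [List.nodup_cons, List.mem_cons, not_or] at this
  exact this.1.2.1

theorem adjacent {V : Type} {G : SimpleGraph V} {f : Sym2 V → ℕ} (h : AllRainbow G f) {a b c d : V}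
    (h1 : a ≠ c) (h2 : b ≠ d) (h3 : G.Adj a b) (h4 : G.Adj b c) (h5 : G.Adj c d) (h6 : G.Adj d a) :
    f s(a, b) ≠ f s(b, c) := by
  have := h a b c d h1 h2 h3 h4 h5 h6
  simp only [List.nodup_cons, List.mem_cons, not_or] at this
  exact this.1.1

section clean

variable {X Y : Type} [Fintype X] [Fintype Y] [LinearOrder X] [LinearOrder Y]

/-- rows with many neighbours -/
def richX (R : X → Y → Prop) (α : ℝ) (x : X) : Prop :=
  α * Fintype.card Y ≤ ((univ.filter fun y => R x y).card : ℝ)

/-- columns with many neighbours -/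
def richY (R : X → Y → Prop) (α : ℝ) (y : Y) : Prop :=
  α * Fintype.card X ≤ ((univ.filter fun x => R x y).card : ℝ)

def EE (R : X → Y → Prop) (α : ℝ) (x : X) (y : Y) : Prop := R x y ∧ richX R α x ∧ richY R α y

theorem EE_dense (R : X → Y → Prop) {α : ℝ} (hα : 0 ≤ α) :
    ∑ y : Y, dg R (univ : Finset X) y ≤ ∑ y : Y, dg (EE R α) (univ : Finset X) y +
      2 * α * (Fintype.card X * Fintype.card Y) := by
  simp_rw [dg_eq]
  have h1 : ∀ y : Y, ∀ x : X, (if R x y then (1 : ℝ) else 0) ≤ (if EE R α x y then (1 : ℝ) else 0) +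
      ((if richX R α x then 0 else (if R x y then (1 : ℝ) else 0)) +
        (if richY R α y then 0 else (if R x y then (1 : ℝ) else 0))) := by
    intro y x
    by_cases hR : R x y <;> by_cases h1 : richX R α x <;> by_cases h2 : richY R α y <;>
      simp [EE, hR, h1, h2]
  have h2 : ∑ y : Y, ∑ x : X, (if richX R α x then 0 else (if R x y then (1 : ℝ) else 0)) ≤
      α * (Fintype.card X * Fintype.card Y) := by
    rw [sum_comm]
    calc ∑ x : X, ∑ y : Y, (if richX R α x then 0 else (if R x y then (1 : ℝ) else 0))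
        ≤ ∑ _x : X, α * Fintype.card Y := by
          refine sum_le_sum fun x _ => ?_
          by_cases hx : richX R α x
          · simp only [hx, if_true, sum_const_zero]
            positivity
          · simp only [hx, if_false]
            refine le_trans (le_of_eq ?_) (le_of_lt (not_le.1 hx))
            rw [card_filter]
            push_cast
            rfl
      _ = α * (Fintype.card X * Fintype.card Y) := by
          rw [sum_const, card_univ, nsmul_eq_mul]; ring
  have h3 : ∑ y : Y, ∑ x : X, (if richY R α y then 0 else (if R x y then (1 : ℝ) else 0)) ≤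
      α * (Fintype.card X * Fintype.card Y) := by
    calc ∑ y : Y, ∑ x : X, (if richY R α y then 0 else (if R x y then (1 : ℝ) else 0))
        ≤ ∑ _y : Y, α * Fintype.card X := by
          refine sum_le_sum fun y _ => ?_
          by_cases hy : richY R α y
          · simp only [hy, if_true, sum_const_zero]
            positivity
          · simp only [hy, if_false]
            refine le_trans (le_of_eq ?_) (le_of_lt (not_le.1 hy))
            rw [card_filter]
            push_cast
            rfl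
      _ = α * (Fintype.card X * Fintype.card Y) := by
          rw [sum_const, card_univ, nsmul_eq_mul]; ring
  have h4 := sum_le_sum fun y (_ : y ∈ (univ : Finset Y)) =>
    sum_le_sum fun x (_ : x ∈ (univ : Finset X)) => h1 y x
  simp_rw [sum_add_distrib] at h4
  linarith

/-- a family of large sets which pairwise meet in one given point only is small -/
theorem few {Z W : Type} [Fintype Z] (L : Finset W) (P : W → Finset Z) (z : Z) {α : ℝ} (hα : 0 < α)
    (h1 : ∀ w ∈ L, α * Fintype.card Z ≤ ((P w).card : ℝ)) (h2 : 2 ≤ α * Fintype.card Z)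
    (h3 : ∀ w ∈ L, ∀ w' ∈ L, w ≠ w' → ∀ u, u ∈ P w → u ∈ P w' → u = z) :
    L.card ≤ ⌊2 / α⌋₊ := by
  have h4 : ∀ w ∈ L, α * Fintype.card Z / 2 ≤ (((P w).erase z).card : ℝ) := by
    intro w hw
    have h5 : (P w).card ≤ ((P w).erase z).card + 1 := by
      have := pred_card_le_card_erase (s := P w) (a := z)
      omega
    have h6 : ((P w).card : ℝ) ≤ (((P w).erase z).card : ℝ) + 1 := by exact_mod_cast h5
    have := h1 w hw
    linarith
  have h5 : (L.biUnion fun w => (P w).erase z).card = ∑ w ∈ L, ((P w).erase z).card := by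
    refine card_biUnion ?_
    intro w hw w' hw' hne
    rw [Function.onFun, disjoint_left]
    intro u hu hu'
    have := h3 w (mem_coe.1 hw) w' (mem_coe.1 hw') hne u (mem_of_mem_erase hu) (mem_of_mem_erase hu')
    exact (ne_of_mem_erase hu) this
  have h6 : (L.biUnion fun w => (P w).erase z).card ≤ Fintype.card Z := card_le_univ _
  have h7 : (L.card : ℝ) * (α * Fintype.card Z / 2) ≤ Fintype.card Z := by
    calc (L.card : ℝ) * (α * Fintype.card Z / 2) = ∑ _w ∈ L, (α * Fintype.card Z / 2) := by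
          rw [sum_const, nsmul_eq_mul]
      _ ≤ ∑ w ∈ L, (((P w).erase z).card : ℝ) := sum_le_sum h4
      _ = ((∑ w ∈ L, ((P w).erase z).card : ℕ) : ℝ) := by push_cast; rfl
      _ ≤ Fintype.card Z := by rw [← h5]; exact_mod_cast h6
  have hZ : (0 : ℝ) < Fintype.card Z := by
    by_contra hcon
    push Not at hcon
    have : α * (Fintype.card Z : ℝ) ≤ 0 := mul_nonpos_of_nonneg_of_nonpos hα.le hcon
    linarith
  refine Nat.le_floor ?_
  rw [le_div_iff₀ hα]
  have h8 : ((L.card : ℝ) * α) * Fintype.card Z ≤ 2 * Fintype.card Z := by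
    calc ((L.card : ℝ) * α) * Fintype.card Z = 2 * ((L.card : ℝ) * (α * Fintype.card Z / 2)) := by ring
      _ ≤ 2 * Fintype.card Z := by linarith
  exact le_of_mul_le_mul_right h8 hZ

/-- the rank of `y` among the cells of its colour in the row `x` -/
noncomputable def rk (E : X → Y → Prop) (q : X → Y → ℕ) (x : X) (y : Y) : ℕ :=
  (univ.filter fun z => E x z ∧ q x z = q x y ∧ z < y).card

/-- the rank of `x` among the cells of its colour in the column `y` -/
noncomputable def rk' (E : X → Y → Prop) (q : X → Y → ℕ) (x : X) (y : Y) : ℕ :=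
  (univ.filter fun z => E z y ∧ q z y = q x y ∧ z < x).card

theorem rk_lt {E : X → Y → Prop} {q : X → Y → ℕ} {x : X} {y y' : Y} (h1 : E x y) (h2 : q x y = q x y')
    (h3 : y < y') : rk E q x y < rk E q x y' := by
  unfold rk
  refine card_lt_card ?_
  rw [ssubset_iff_of_subset]
  · refine ⟨y, ?_, ?_⟩
    · simp [h1, h2, h3]
    · simp
  · intro z hz
    simp only [mem_filter, mem_univ, true_and] at hz ⊢
    exact ⟨hz.1, hz.2.1.trans h2, hz.2.2.trans h3⟩

theorem rk'_lt {E : X → Y → Prop} {q : X → Y → ℕ} {x x' : X} {y : Y} (h1 : E x y) (h2 : q x y = q x' y)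
    (h3 : x < x') : rk' E q x y < rk' E q x' y := by
  unfold rk'
  refine card_lt_card ?_
  rw [ssubset_iff_of_subset]
  · refine ⟨x, ?_, ?_⟩
    · simp [h1, h2, h3]
    · simp
  · intro z hz
    simp only [mem_filter, mem_univ, true_and] at hz ⊢
    exact ⟨hz.1, hz.2.1.trans h2, hz.2.2.trans h3⟩

theorem ofNat_inj {k a b : ℕ} (ha : a < k + 1) (hb : b < k + 1)
    (h : (Fin.ofNat (k + 1) a) = Fin.ofNat (k + 1) b) : a = b := by
  have := congrArg Fin.val h
  simp only [Fin.val_ofNat] at this
  rwa [Nat.mod_eq_of_lt ha, Nat.mod_eq_of_lt hb] at this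

/-- splitting the colour classes into partial injections -/
theorem good_split (R : X → Y → Prop) (q : X → Y → ℕ) {α : ℝ} (hα : 0 < α) (r : ℕ)
    (hX : 2 ≤ α * Fintype.card X) (hY : 2 ≤ α * Fintype.card Y)
    (hr : ∀ x y, R x y → q x y < r + 1)
    (hadj1 : ∀ x x' y y', R x y → R x y' → R x' y → R x' y' → x ≠ x' → y ≠ y' → q x y ≠ q x y')
    (hadj2 : ∀ x x' y y', R x y → R x y' → R x' y → R x' y' → x ≠ x' → y ≠ y' → q x y ≠ q x' y)
    (hopp : ∀ x x' y y', R x y → R x y' → R x' y → R x' y' → x ≠ x' → y ≠ y' → q x y ≠ q x' y') :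
    Good (EE R α) (fun x y => ((Fin.ofNat (r + 1) (q x y), Fin.ofNat (⌊2 / α⌋₊ + 1) (rk (EE R α) q x y),
      Fin.ofNat (⌊2 / α⌋₊ + 1) (rk' (EE R α) q x y)) : Fin (r + 1) × Fin (⌊2 / α⌋₊ + 1) × Fin (⌊2 / α⌋₊ + 1))) := by
  have hrk : ∀ x y, EE R α x y → rk (EE R α) q x y < ⌊2 / α⌋₊ + 1 := by
    intro x y hxy
    refine Nat.lt_succ_of_le ?_
    refine (card_le_card (t := univ.filter fun z => EE R α x z ∧ q x z = q x y) ?_).trans ?_
    · intro z hz
      simp only [mem_filter, mem_univ, true_and] at hz ⊢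
      exact ⟨hz.1, hz.2.1⟩
    · refine few _ (fun z => univ.filter fun x' => R x' z) x hα ?_ hX ?_
      · intro z hz
        exact (mem_filter.1 hz).2.1.2.2
      · intro z hz z' hz' hne u hu hu'
        simp only [mem_filter, mem_univ, true_and] at hz hz' hu hu'
        by_contra hne'
        exact hadj1 x u z z' hz.1.1 hz'.1.1 hu hu' (Ne.symm hne') hne (hz.2.trans hz'.2.symm)
  have hrk' : ∀ x y, EE R α x y → rk' (EE R α) q x y < ⌊2 / α⌋₊ + 1 := by
    intro x y hxy
    refine Nat.lt_succ_of_le ?_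
    refine (card_le_card (t := univ.filter fun z => EE R α z y ∧ q z y = q x y) ?_).trans ?_
    · intro z hz
      simp only [mem_filter, mem_univ, true_and] at hz ⊢
      exact ⟨hz.1, hz.2.1⟩
    · refine few _ (fun z => univ.filter fun y' => R z y') y hα ?_ hY ?_
      · intro z hz
        exact (mem_filter.1 hz).2.1.2.1
      · intro z hz z' hz' hne u hu hu'
        simp only [mem_filter, mem_univ, true_and] at hz hz' hu hu'
        by_contra hne'
        exact hadj2 z z' y u hz.1.1 hu hz'.1.1 hu' hne (Ne.symm hne') (hz.2.trans hz'.2.symm)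
  refine ⟨?_, ?_, ?_⟩
  · intro x y y' h1 h2 h3
    simp only [Prod.mk.injEq] at h3
    have e1 := ofNat_inj (hr x y h1.1) (hr x y' h2.1) h3.1
    have e2 := ofNat_inj (hrk x y h1) (hrk x y' h2) h3.2.1
    rcases lt_trichotomy y y' with h4 | h4 | h4
    · exact absurd e2 (ne_of_lt (rk_lt h1 e1 h4))
    · exact h4
    · exact absurd e2.symm (ne_of_lt (rk_lt h2 e1.symm h4))
  · intro x x' y h1 h2 h3
    simp only [Prod.mk.injEq] at h3
    have e1 := ofNat_inj (hr x y h1.1) (hr x' y h2.1) h3.1
    have e2 := ofNat_inj (hrk' x y h1) (hrk' x' y h2) h3.2.2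
    rcases lt_trichotomy x x' with h4 | h4 | h4
    · exact absurd e2 (ne_of_lt (rk'_lt h1 e1 h4))
    · exact h4
    · exact absurd e2.symm (ne_of_lt (rk'_lt h2 e1.symm h4))
  · rintro x x' y y' h1 h2 h3 h4 ⟨h5, h6⟩
    simp only [Prod.mk.injEq] at h3
    have e1 := ofNat_inj (hr x y h1.1) (hr x' y' h2.1) h3.1
    have hyy : y ≠ y' := by
      rintro rfl
      have e2 := ofNat_inj (hrk' x y h1) (hrk' x' y h2) h3.2.2
      rcases lt_trichotomy x x' with h7 | h7 | h7
      · exact absurd e2 (ne_of_lt (rk'_lt h1 e1 h7))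
      · exact h4 h7
      · exact absurd e2.symm (ne_of_lt (rk'_lt h2 e1.symm h7))
    exact hopp x x' y y' h1.1 h5.1 h6.1 h2.1 h4 hyy e1

end clean

/-- **Density at most `1/2 + δ` between any two linear vertex sets.** -/
theorem local_density {δ C : ℝ} (hδ : 0 < δ) (hC : 0 < C) :
    ∃ n₀ : ℕ, ∀ n : ℕ, n₀ ≤ n → ∀ (G : SimpleGraph (Fin n)) (f : Sym2 (Fin n) → ℕ) (r : ℕ),
      (r : ℝ) ≤ C * n → (∀ e ∈ G.edgeSet, f e < r) → AllRainbow G f →
      ∀ A B : Finset (Fin n), δ * n ≤ A.card → δ * n ≤ B.card →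
        (((A ×ˢ B).filter fun p => G.Adj p.1 p.2).card : ℝ) ≤ (1 / 2 + δ) * (A.card * B.card) := by
  set α : ℝ := δ / 4 with hα
  have hα0 : 0 < α := by rw [hα]; positivity
  set D : ℕ := ⌊2 / α⌋₊ with hD
  obtain ⟨N₀, hN₀, hden⟩ := density (δ := δ / 2) (C := (C + 1) * (D + 1) ^ 2 / δ) (l := δ)
    (by positivity) (by positivity) hδ
  refine ⟨⌈(N₀ : ℝ) / δ⌉₊ + ⌈2 / (α * δ)⌉₊ + 1, ?_⟩
  intro n hn G f r hr hf hG A B hA hB
  have hn1 : 1 ≤ n := by omega
  have hn1' : (1 : ℝ) ≤ n := by exact_mod_cast hn1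
  have hnN : (N₀ : ℝ) / δ ≤ n := (Nat.le_ceil _).trans (by
    have : ⌈(N₀ : ℝ) / δ⌉₊ ≤ n := by omega
    exact_mod_cast this)
  have hnα : 2 / (α * δ) ≤ n := (Nat.le_ceil _).trans (by
    have : ⌈2 / (α * δ)⌉₊ ≤ n := by omega
    exact_mod_cast this)
  rw [div_le_iff₀ hδ] at hnN
  rw [div_le_iff₀ (by positivity)] at hnα
  have hAn : (A.card : ℝ) ≤ n := by
    have := card_le_univ A
    rw [Fintype.card_fin] at this
    exact_mod_cast this
  have hBn : (B.card : ℝ) ≤ n := by
    have := card_le_univ B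
    rw [Fintype.card_fin] at this
    exact_mod_cast this
  have hA2 : 2 ≤ α * (A.card : ℝ) := by nlinarith [mul_le_mul_of_nonneg_left hA hα0.le]
  have hB2 : 2 ≤ α * (B.card : ℝ) := by nlinarith [mul_le_mul_of_nonneg_left hB hα0.le]
  set R : {x // x ∈ A} → {y // y ∈ B} → Prop := fun x y => G.Adj x.1 y.1 with hR
  set q : {x // x ∈ A} → {y // y ∈ B} → ℕ := fun x y => f s(x.1, y.1) with hq
  have cX : Fintype.card {x // x ∈ A} = A.card := Fintype.card_coe A
  have cY : Fintype.card {y // y ∈ B} = B.card := Fintype.card_coe B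
  have hgood := good_split R q hα0 r (by rw [cX]; exact hA2) (by rw [cY]; exact hB2)
    (by
      intro x y hxy
      exact Nat.lt_succ_of_lt (hf _ ((SimpleGraph.mem_edgeSet G).2 hxy)))
    (by
      intro x x' y y' h1 h2 h3 h4 h5 h6
      have := adjacent hG (a := y.1) (b := x.1) (c := y'.1) (d := x'.1) (fun e => h6 (Subtype.ext e))
        (fun e => h5 (Subtype.ext e)) h1.symm h2 h4.symm h3
      intro e
      apply this
      rw [Sym2.eq_swap]
      exact e)
    (by
      intro x x' y y' h1 h2 h3 h4 h5 h6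
      have := adjacent hG (a := x.1) (b := y.1) (c := x'.1) (d := y'.1) (fun e => h5 (Subtype.ext e))
        (fun e => h6 (Subtype.ext e)) h1 h3.symm h4 h2.symm
      intro e
      apply this
      rw [Sym2.eq_swap (a := y.1)]
      exact e)
    (by
      intro x x' y y' h1 h2 h3 h4 h5 h6
      exact opposite hG (a := x.1) (b := y.1) (c := x'.1) (d := y'.1) (fun e => h5 (Subtype.ext e))
        (fun e => h6 (Subtype.ext e)) h1 h3.symm h4 h2.symm)
  have h1 := hden _ _ _ (EE R α) _ hgood
    (by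
      rw [cY]
      have : (N₀ : ℝ) ≤ B.card := by
        calc (N₀ : ℝ) ≤ n * δ := hnN
          _ = δ * n := by ring
          _ ≤ B.card := hB
      exact_mod_cast this)
    (by
      rw [cY, Fintype.card_prod, Fintype.card_prod, Fintype.card_fin, Fintype.card_fin, ← hD]
      push_cast
      have h2 : ((r : ℝ) + 1) ≤ (C + 1) * n := by nlinarith
      have h3 : (n : ℝ) ≤ B.card / δ := by
        rw [le_div_iff₀ hδ]
        calc (n : ℝ) * δ = δ * n := by ring
          _ ≤ B.card := hB
      calc ((r : ℝ) + 1) * (((D : ℝ) + 1) * ((D : ℝ) + 1))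
          ≤ ((C + 1) * n) * (((D : ℝ) + 1) * ((D : ℝ) + 1)) :=
            mul_le_mul_of_nonneg_right h2 (by positivity)
        _ = ((C + 1) * ((D : ℝ) + 1) ^ 2) * n := by ring
        _ ≤ ((C + 1) * ((D : ℝ) + 1) ^ 2) * (B.card / δ) :=
            mul_le_mul_of_nonneg_left h3 (by positivity)
        _ = (C + 1) * ((D : ℝ) + 1) ^ 2 / δ * B.card := by ring)
    (by
      rw [cX, cY]
      calc δ * (B.card : ℝ) ≤ δ * n := mul_le_mul_of_nonneg_left hBn hδ.le
        _ ≤ A.card := hA)
  have h2 := EE_dense R hα0.le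
  rw [cX, cY] at h1 h2
  have h3 : (((A ×ˢ B).filter fun p => G.Adj p.1 p.2).card : ℝ) =
      ∑ y : {y // y ∈ B}, dg R (univ : Finset {x // x ∈ A}) y := by
    simp_rw [dg_eq]
    rw [card_filter, sum_product_right]
    push_cast
    rw [← sum_coe_sort B]
    refine sum_congr rfl fun y _ => ?_
    rw [← sum_coe_sort A]
  rw [h3]
  have h4 : 2 * α = δ / 2 := by rw [hα]; ring
  rw [h4] at h2
  linarith

end Pool.Agent.H36.CF
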