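import Pool.Agent.H36.CF.Core

/-! The increment step: from a block of rows to a smaller one with a larger potential. -/

set_option autoImplicit false
set_option linter.unusedSectionVars false

open Finset
open scoped Classical

namespace Pool.Agent.H36.CF

variable {X Y ι : Type} [Fintype X] [Fintype Y] [Fintype ι]
variable {E : X → Y → Prop} {f : X → Y → ι}

/-- gain of the column `y` under the colour `c` -/
noncomputable def aa (E : X → Y → Prop) (f : X → Y → ι) (I : Finset X) (c : ι) (y : Y) : ℝ :=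
  dd E I y - dd E (SS E f I c) y

theorem aa_le_one (I : Finset X) (c : ι) (y : Y) : aa E f I c y ≤ 1 := by
  unfold aa
  linarith [dd_le_one (E := E) I y, dd_nonneg (E := E) (SS E f I c) y]

theorem exists_colour (h : Good E f) (I : Finset X) (U : Finset Y) {A κ : ℝ}
    (hG : A ≤ ∑ c : ι, ∑ y ∈ TT E f I c, aa E f I c y)
    (hκ : (Fintype.card ι : ℝ) * κ < A - U.card * I.card) :
    ∃ c, κ ≤ ∑ y ∈ TT E f I c \ U, aa E f I c y := by
  by_contra hcon
  push Not at hcon
  have h1 : ∑ c : ι, ∑ y ∈ TT E f I c \ U, aa E f I c y ≤ (Fintype.card ι : ℝ) * κ := by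
    calc ∑ c : ι, ∑ y ∈ TT E f I c \ U, aa E f I c y ≤ ∑ _c : ι, κ :=
          sum_le_sum fun c _ => (hcon c).le
      _ = (Fintype.card ι : ℝ) * κ := by rw [sum_const, card_univ, nsmul_eq_mul]
  have h2 : ∀ c : ι, ∑ y ∈ TT E f I c, aa E f I c y ≤
      (∑ y ∈ TT E f I c \ U, aa E f I c y) + ∑ y ∈ TT E f I c, (if y ∈ U then (1 : ℝ) else 0) := by
    intro c
    have e1 : ∑ y ∈ TT E f I c \ U, aa E f I c y =
        ∑ y ∈ TT E f I c, (if y ∈ U then 0 else aa E f I c y) := by
      rw [sdiff_eq_filter, sum_filter]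
      refine sum_congr rfl fun y _ => ?_
      by_cases hy : y ∈ U <;> simp [hy]
    rw [e1, ← sum_add_distrib]
    refine sum_le_sum fun y _ => ?_
    by_cases hy : y ∈ U
    · simp [hy, aa_le_one]
    · simp [hy]
  have h3 : ∑ c : ι, ∑ y ∈ TT E f I c, (if y ∈ U then (1 : ℝ) else 0) ≤ U.card * I.card := by
    rw [sum_TT h I (fun y => if y ∈ U then (1 : ℝ) else 0)]
    calc ∑ y : Y, (if y ∈ U then (1 : ℝ) else 0) * dg E I y
        ≤ ∑ y : Y, (if y ∈ U then (I.card : ℝ) else 0) := by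
          refine sum_le_sum fun y _ => ?_
          by_cases hy : y ∈ U
          · simp [hy, dg_le]
          · simp [hy]
      _ = U.card * I.card := by
          rw [← sum_filter, sum_const, nsmul_eq_mul]
          congr 2
          congr 1
          ext y
          simp
  have h4 : A ≤ (Fintype.card ι : ℝ) * κ + U.card * I.card := by
    calc A ≤ ∑ c : ι, ∑ y ∈ TT E f I c, aa E f I c y := hG
      _ ≤ ∑ c : ι, ((∑ y ∈ TT E f I c \ U, aa E f I c y) +
            ∑ y ∈ TT E f I c, (if y ∈ U then (1 : ℝ) else 0)) := sum_le_sum fun c _ => h2 c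
      _ ≤ _ := by rw [sum_add_distrib]; exact add_le_add h1 h3
  linarith

theorem greedy [Nonempty ι] (h : Good E f) (I : Finset X) {A κ : ℝ} (hκ0 : 0 ≤ κ)
    (hG : A ≤ ∑ c : ι, ∑ y ∈ TT E f I c, aa E f I c y) (j : ℕ)
    (hj : ∀ i < j, (Fintype.card ι : ℝ) * κ < A - (i * I.card) * I.card) :
    ∃ (U : Finset Y) (S : Finset ι) (g : Y → ι), S.card ≤ j ∧ U.card ≤ j * I.card ∧
      (∀ y ∈ U, g y ∈ S) ∧
      j * κ ^ 2 ≤ ∑ y ∈ U, ((SS E f I (g y)).card : ℝ) * aa E f I (g y) y ^ 2 := by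
  induction j with
  | zero => exact ⟨∅, ∅, fun _ => Classical.arbitrary ι, by simp, by simp, by simp, by simp⟩
  | succ j ih =>
    obtain ⟨U, S, g, h1, h2, h3, h4⟩ := ih (fun i hi => hj i (Nat.lt_succ_of_lt hi))
    have h5 : (Fintype.card ι : ℝ) * κ < A - U.card * I.card := by
      have h6 := hj j (Nat.lt_succ_self j)
      have h7 : (U.card : ℝ) ≤ j * I.card := by exact_mod_cast h2
      have h8 : (U.card : ℝ) * I.card ≤ (j * I.card) * I.card :=
        mul_le_mul_of_nonneg_right h7 (Nat.cast_nonneg _)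
      linarith
    obtain ⟨c, hc⟩ := exists_colour h I U hG h5
    refine ⟨U ∪ (TT E f I c \ U), insert c S, fun y => if y ∈ U then g y else c, ?_, ?_, ?_, ?_⟩
    · exact (card_insert_le _ _).trans (Nat.succ_le_succ h1)
    · refine (card_union_le _ _).trans ?_
      have := card_TT_le h I c
      have h9 : (TT E f I c \ U).card ≤ I.card := (card_le_card sdiff_subset).trans this
      calc U.card + (TT E f I c \ U).card ≤ j * I.card + I.card := Nat.add_le_add h2 h9
        _ = (j + 1) * I.card := by ring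
    · intro y hy
      by_cases hyU : y ∈ U
      · simp only [hyU, if_true]
        exact mem_insert_of_mem (h3 y hyU)
      · simp only [hyU, if_false]
        exact mem_insert_self _ _
    · rw [sum_union disjoint_sdiff]
      have e1 : ∑ y ∈ U, ((SS E f I (if y ∈ U then g y else c)).card : ℝ) *
            aa E f I (if y ∈ U then g y else c) y ^ 2 =
          ∑ y ∈ U, ((SS E f I (g y)).card : ℝ) * aa E f I (g y) y ^ 2 := by
        refine sum_congr rfl fun y hy => ?_
        rw [if_pos hy]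
      have e2 : ∑ y ∈ TT E f I c \ U, ((SS E f I (if y ∈ U then g y else c)).card : ℝ) *
            aa E f I (if y ∈ U then g y else c) y ^ 2 =
          ∑ y ∈ TT E f I c \ U, ((SS E f I c).card : ℝ) * aa E f I c y ^ 2 := by
        refine sum_congr rfl fun y hy => ?_
        rw [if_neg (mem_sdiff.1 hy).2]
      rw [e1, e2, ← mul_sum]
      have h6 : κ ^ 2 ≤ ((SS E f I c).card : ℝ) * ∑ y ∈ TT E f I c \ U, aa E f I c y ^ 2 := by
        have h7 : (∑ y ∈ TT E f I c \ U, aa E f I c y) ^ 2 ≤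
            ((TT E f I c \ U).card : ℝ) * ∑ y ∈ TT E f I c \ U, aa E f I c y ^ 2 :=
          sq_sum_le_card_mul_sum_sq
        have h8 : κ ^ 2 ≤ (∑ y ∈ TT E f I c \ U, aa E f I c y) ^ 2 := pow_le_pow_left₀ hκ0 hc 2
        have h9 : ((TT E f I c \ U).card : ℝ) ≤ (SS E f I c).card := by
          have : (TT E f I c \ U).card ≤ (SS E f I c).card := by
            rw [card_SS h, ← card_TT h]
            exact card_le_card sdiff_subset
          exact_mod_cast this
        have h10 : 0 ≤ ∑ y ∈ TT E f I c \ U, aa E f I c y ^ 2 := sum_nonneg fun y _ => sq_nonneg _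
        nlinarith [mul_le_mul_of_nonneg_right h9 h10]
      push_cast
      linarith

/-- the rows of `I` which lie in exactly the sets `SS c`, `c ∈ w`, among the colours of `S` -/
noncomputable def JJ (E : X → Y → Prop) (f : X → Y → ι) (I : Finset X) (S w : Finset ι) : Finset X :=
  I.filter fun x => (S.filter fun c => x ∈ SS E f I c) = w

theorem dg_eq (I : Finset X) (y : Y) : dg E I y = ∑ x ∈ I, if E x y then (1 : ℝ) else 0 := by
  unfold dg
  rw [card_filter]
  push_cast
  rfl

theorem sum_JJ (I : Finset X) (S : Finset ι) (v : X → ℝ) :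
    ∑ w ∈ S.powerset, ∑ x ∈ JJ E f I S w, v x = ∑ x ∈ I, v x := by
  unfold JJ
  exact sum_fiberwise_of_maps_to (fun x _ => mem_powerset.2 (filter_subset _ _)) v

theorem sum_JJ_mem (I : Finset X) (S : Finset ι) {c : ι} (hc : c ∈ S) (v : X → ℝ) :
    ∑ w ∈ S.powerset.filter (fun w => c ∈ w), ∑ x ∈ JJ E f I S w, v x = ∑ x ∈ SS E f I c, v x := by
  have h1 : ∀ w ∈ S.powerset.filter (fun w => c ∈ w), ∑ x ∈ JJ E f I S w, v x =
      ∑ x ∈ JJ E f I S w, (if x ∈ SS E f I c then v x else 0) := by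
    intro w hw
    refine sum_congr rfl fun x hx => ?_
    have h2 := (mem_filter.1 hx).2
    have h3 := (mem_filter.1 hw).2
    rw [← h2] at h3
    rw [if_pos (mem_filter.1 h3).2]
  have h2 : ∀ w ∈ S.powerset, c ∉ w → ∑ x ∈ JJ E f I S w, (if x ∈ SS E f I c then v x else 0) = 0 := by
    intro w _ hcw
    refine sum_eq_zero fun x hx => ?_
    have h2 := (mem_filter.1 hx).2
    rw [if_neg]
    intro h3
    apply hcw
    rw [← h2]
    exact mem_filter.2 ⟨hc, h3⟩
  rw [sum_congr rfl h1, sum_filter]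
  have h3 : ∀ w ∈ S.powerset, (if c ∈ w then ∑ x ∈ JJ E f I S w, (if x ∈ SS E f I c then v x else 0) else 0) =
      ∑ x ∈ JJ E f I S w, (if x ∈ SS E f I c then v x else 0) := by
    intro w hw
    by_cases hcw : c ∈ w
    · rw [if_pos hcw]
    · rw [if_neg hcw, h2 w hw hcw]
  rw [sum_congr rfl h3, sum_JJ I S, ← sum_filter]
  refine sum_congr ?_ fun _ _ => rfl
  ext x
  simp only [mem_filter]
  exact ⟨fun h => h.2, fun h => ⟨SS_subset I c h, h⟩⟩

theorem sum_card_JJ (I : Finset X) (S : Finset ι) :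
    ∑ w ∈ S.powerset, ((JJ E f I S w).card : ℝ) = I.card := by
  have := sum_JJ (E := E) (f := f) I S (fun _ => (1 : ℝ))
  simpa using this

theorem sum_dg_JJ (I : Finset X) (S : Finset ι) (y : Y) :
    ∑ w ∈ S.powerset, dg E (JJ E f I S w) y = dg E I y := by
  simp_rw [dg_eq]
  exact sum_JJ (E := E) (f := f) I S _

theorem refine_colour (I : Finset X) (S : Finset ι) {c : ι} (hc : c ∈ S) (y : Y) :
    (I.card : ℝ) * dd E I y ^ 2 + ((SS E f I c).card : ℝ) * aa E f I c y ^ 2 ≤
      ∑ w ∈ S.powerset, ((JJ E f I S w).card : ℝ) * dd E (JJ E f I S w) y ^ 2 := by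
  set d := dd E I y with hd
  have e1 : ∑ w ∈ S.powerset, ((JJ E f I S w).card : ℝ) * (dd E (JJ E f I S w) y - d) ^ 2 =
      ∑ w ∈ S.powerset, ((JJ E f I S w).card : ℝ) * dd E (JJ E f I S w) y ^ 2 - I.card * d ^ 2 := by
    have h1 : ∀ w ∈ S.powerset, ((JJ E f I S w).card : ℝ) * (dd E (JJ E f I S w) y - d) ^ 2 =
        ((JJ E f I S w).card : ℝ) * dd E (JJ E f I S w) y ^ 2 - 2 * d * dg E (JJ E f I S w) y +
          d ^ 2 * ((JJ E f I S w).card : ℝ) := by
      intro w _
      rw [← card_mul_dd]; ring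
    rw [sum_congr rfl h1, sum_add_distrib, sum_sub_distrib, ← mul_sum, ← mul_sum, sum_card_JJ, sum_dg_JJ,
      ← card_mul_dd, ← hd]
    ring
  have e2 : ∑ w ∈ S.powerset.filter (fun w => c ∈ w),
      ((JJ E f I S w).card : ℝ) * (dd E (JJ E f I S w) y - d) ^ 2 ≤
      ∑ w ∈ S.powerset, ((JJ E f I S w).card : ℝ) * (dd E (JJ E f I S w) y - d) ^ 2 :=
    sum_le_sum_of_subset_of_nonneg (filter_subset _ _) fun w _ _ => by positivity
  have e3 : ∑ w ∈ S.powerset.filter (fun w => c ∈ w), ((JJ E f I S w).card : ℝ) = (SS E f I c).card := by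
    have := sum_JJ_mem (E := E) (f := f) I S hc (fun _ => (1 : ℝ))
    simpa using this
  have e4 : ∑ w ∈ S.powerset.filter (fun w => c ∈ w), dg E (JJ E f I S w) y = dg E (SS E f I c) y := by
    simp_rw [dg_eq]
    exact sum_JJ_mem (E := E) (f := f) I S hc _
  have e5 : ∑ w ∈ S.powerset.filter (fun w => c ∈ w),
      ((JJ E f I S w).card : ℝ) * (dd E (JJ E f I S w) y - d) = -(((SS E f I c).card : ℝ) * aa E f I c y) := by
    have h1 : ∀ w ∈ S.powerset.filter (fun w => c ∈ w),
        ((JJ E f I S w).card : ℝ) * (dd E (JJ E f I S w) y - d) =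
        dg E (JJ E f I S w) y - d * ((JJ E f I S w).card : ℝ) := by
      intro w _
      rw [← card_mul_dd]; ring
    rw [sum_congr rfl h1, sum_sub_distrib, ← mul_sum, e3, e4, ← card_mul_dd]
    unfold aa
    rw [← hd]
    ring
  have e6 : (∑ w ∈ S.powerset.filter (fun w => c ∈ w),
      ((JJ E f I S w).card : ℝ) * (dd E (JJ E f I S w) y - d)) ^ 2 ≤
      (∑ w ∈ S.powerset.filter (fun w => c ∈ w), ((JJ E f I S w).card : ℝ)) *
      ∑ w ∈ S.powerset.filter (fun w => c ∈ w),
        ((JJ E f I S w).card : ℝ) * (dd E (JJ E f I S w) y - d) ^ 2 :=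
    sum_sq_le_sum_mul_sum_of_sq_le_mul _ (fun w _ => by positivity) (fun w _ => by positivity)
      (fun w _ => le_of_eq (by ring))
  rw [e5, e3] at e6
  have e7 : ((SS E f I c).card : ℝ) * aa E f I c y ^ 2 ≤
      ∑ w ∈ S.powerset.filter (fun w => c ∈ w),
        ((JJ E f I S w).card : ℝ) * (dd E (JJ E f I S w) y - d) ^ 2 := by
    rcases Nat.eq_zero_or_pos (SS E f I c).card with h0 | h0
    · rw [h0]
      push_cast
      rw [zero_mul]
      exact sum_nonneg fun w _ => by positivity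
    · have h0' : (0 : ℝ) < (SS E f I c).card := by exact_mod_cast h0
      have h1 : ((SS E f I c).card : ℝ) * (((SS E f I c).card : ℝ) * aa E f I c y ^ 2) ≤
          ((SS E f I c).card : ℝ) * ∑ w ∈ S.powerset.filter (fun w => c ∈ w),
            ((JJ E f I S w).card : ℝ) * (dd E (JJ E f I S w) y - d) ^ 2 := by
        calc _ = (-(((SS E f I c).card : ℝ) * aa E f I c y)) ^ 2 := by ring
          _ ≤ _ := e6
      exact le_of_mul_le_mul_left h1 h0'
  linarith

theorem refine_plain (I : Finset X) (S : Finset ι) (y : Y) :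
    (I.card : ℝ) * dd E I y ^ 2 ≤
      ∑ w ∈ S.powerset, ((JJ E f I S w).card : ℝ) * dd E (JJ E f I S w) y ^ 2 := by
  set d := dd E I y with hd
  have e1 : ∑ w ∈ S.powerset, ((JJ E f I S w).card : ℝ) * (dd E (JJ E f I S w) y - d) ^ 2 =
      ∑ w ∈ S.powerset, ((JJ E f I S w).card : ℝ) * dd E (JJ E f I S w) y ^ 2 - I.card * d ^ 2 := by
    have h1 : ∀ w ∈ S.powerset, ((JJ E f I S w).card : ℝ) * (dd E (JJ E f I S w) y - d) ^ 2 =
        ((JJ E f I S w).card : ℝ) * dd E (JJ E f I S w) y ^ 2 - 2 * d * dg E (JJ E f I S w) y +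
          d ^ 2 * ((JJ E f I S w).card : ℝ) := by
      intro w _
      rw [← card_mul_dd]; ring
    rw [sum_congr rfl h1, sum_add_distrib, sum_sub_distrib, ← mul_sum, ← mul_sum, sum_card_JJ, sum_dg_JJ,
      ← card_mul_dd, ← hd]
    ring
  have e2 : 0 ≤ ∑ w ∈ S.powerset, ((JJ E f I S w).card : ℝ) * (dd E (JJ E f I S w) y - d) ^ 2 :=
    sum_nonneg fun w _ => by positivity
  linarith

/-- the average potential of the pieces -/
theorem average (I : Finset X) (S : Finset ι) (U : Finset Y) (g : Y → ι) (hg : ∀ y ∈ U, g y ∈ S) :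
    (I.card : ℝ) * Ph E I + ∑ y ∈ U, ((SS E f I (g y)).card : ℝ) * aa E f I (g y) y ^ 2 ≤
      ∑ w ∈ S.powerset, ((JJ E f I S w).card : ℝ) * Ph E (JJ E f I S w) := by
  have h1 : ∑ w ∈ S.powerset, ((JJ E f I S w).card : ℝ) * Ph E (JJ E f I S w) =
      ∑ y : Y, ((∑ w ∈ S.powerset, ((JJ E f I S w).card : ℝ) * dd E (JJ E f I S w) y ^ 2) -
        dg E I y / 2) := by
    unfold Ph
    simp_rw [mul_sum]
    rw [sum_comm]
    refine sum_congr rfl fun y _ => ?_
    rw [← sum_dg_JJ (E := E) (f := f) I S y, sum_div, ← sum_sub_distrib]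
    refine sum_congr rfl fun w _ => ?_
    rw [← card_mul_dd]; ring
  have h2 : (I.card : ℝ) * Ph E I = ∑ y : Y, ((I.card : ℝ) * dd E I y ^ 2 - dg E I y / 2) := by
    unfold Ph
    rw [mul_sum]
    refine sum_congr rfl fun y _ => ?_
    rw [← card_mul_dd]; ring
  have h3 : ∑ y ∈ U, ((SS E f I (g y)).card : ℝ) * aa E f I (g y) y ^ 2 =
      ∑ y : Y, if y ∈ U then ((SS E f I (g y)).card : ℝ) * aa E f I (g y) y ^ 2 else 0 := by
    rw [← sum_filter]
    refine sum_congr ?_ fun _ _ => rfl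
    ext y; simp
  rw [h1, h2, h3, ← sum_add_distrib]
  refine sum_le_sum fun y _ => ?_
  by_cases hy : y ∈ U
  · rw [if_pos hy]
    have := refine_colour (E := E) (f := f) I S (hg y hy) y
    linarith
  · rw [if_neg hy]
    have := refine_plain (E := E) (f := f) I S y
    linarith

end Pool.Agent.H36.CF
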