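import Pool.Agent.H36.CF.Inc

/-! The increment step with constants, the iteration, and the bound `1/2 + o(1)` for the density. -/

set_option autoImplicit false
set_option linter.unusedSectionVars false

open Finset
open scoped Classical

namespace Pool.Agent.H36.CF

/-- the increment -/
noncomputable def gg (δ C : ℝ) : ℝ := δ / 8 * (δ / (4 * C)) ^ 2

theorem gg_pos {δ C : ℝ} (hδ : 0 < δ) (hC : 0 < C) : 0 < gg δ C := by
  unfold gg; positivity

theorem step {δ C l : ℝ} (hδ : 0 < δ) (hC : 0 < C) (hl : 0 < l) :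
    ∃ θ : ℝ, 0 < θ ∧ ∀ (X Y ι : Type) [Fintype X] [Fintype Y] [Fintype ι] (E : X → Y → Prop) (f : X → Y → ι),
      Good E f → 0 < Fintype.card Y → (Fintype.card ι : ℝ) ≤ C * Fintype.card Y →
      ∀ I : Finset X, l * Fintype.card Y ≤ I.card →
        (Fintype.card ι : ℝ) ≤ δ * I.card * Fintype.card Y →
        δ * Fintype.card Y ≤ Ph E I →
        ∃ J : Finset X, θ * I.card ≤ J.card ∧ Ph E I + gg δ C * Fintype.card Y ≤ Ph E J := by
  set m : ℕ := ⌈δ / (4 * l) + 1⌉₊ with hm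
  have hg := gg_pos hδ hC
  refine ⟨gg δ C / 2 ^ m, by positivity, ?_⟩
  intro X Y ι _ _ _ E f h hN hk I hI hkI hPh
  set N : ℝ := (Fintype.card Y : ℝ) with hNdef
  have hN' : 0 < N := by rw [hNdef]; exact_mod_cast hN
  set a : ℝ := (I.card : ℝ) with ha
  have ha0 : 0 < a := lt_of_lt_of_le (by positivity) hI
  set A : ℝ := δ / 2 * N * a with hA
  set κ : ℝ := δ / (4 * C) * a with hκ
  have hκ0 : 0 ≤ κ := by positivity
  have hG : A ≤ ∑ c : ι, ∑ y ∈ TT E f I c, aa E f I c y := by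
    have h1 := gain h I
    have h2 : a * (δ * N) ≤ a * Ph E I := mul_le_mul_of_nonneg_left hPh ha0.le
    have h3 : ∑ c : ι, ∑ y ∈ TT E f I c, (dd E I y - dd E (SS E f I c) y) =
        ∑ c : ι, ∑ y ∈ TT E f I c, aa E f I c y := rfl
    rw [h3] at h1
    have h4 : δ * a * N = a * (δ * N) := by ring
    nlinarith [h1, h2, hkI]
  set j : ℕ := ⌈δ / 4 * N / a⌉₊ with hj
  have hkκ : (Fintype.card ι : ℝ) * κ ≤ δ / 4 * N * a := by
    calc (Fintype.card ι : ℝ) * κ ≤ (C * N) * κ := mul_le_mul_of_nonneg_right hk hκ0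
      _ = δ / 4 * N * a := by rw [hκ]; field_simp
  have hji : ∀ i < j, (Fintype.card ι : ℝ) * κ < A - (i * I.card) * I.card := by
    intro i hi
    have h1 : (i : ℝ) < δ / 4 * N / a := Nat.lt_ceil.1 hi
    rw [lt_div_iff₀ ha0] at h1
    have h2 : (i * a) * a < (δ / 4 * N) * a := mul_lt_mul_of_pos_right h1 ha0
    have h3 : A = δ / 4 * N * a + δ / 4 * N * a := by rw [hA]; ring
    rw [← ha]
    linarith
  have : Nonempty ι := by
    by_contra hcon
    rw [not_nonempty_iff] at hcon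
    have : A ≤ 0 := by simpa using hG
    have : 0 < A := by positivity
    linarith
  obtain ⟨U, S, g, h1, h2, h3, h4⟩ := greedy h I hκ0 hG j hji
  have hjm : j ≤ m := by
    rw [hj, hm]
    refine Nat.ceil_le_ceil ?_
    have : δ / 4 * N / a ≤ δ / (4 * l) := by
      rw [div_le_div_iff₀ ha0 (by positivity)]
      have h5 := mul_le_mul_of_nonneg_left hI hδ.le
      nlinarith [h5]
    linarith
  have hja : δ / 4 * N ≤ j * a := by
    have h5 : δ / 4 * N / a ≤ j := Nat.le_ceil _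
    rwa [div_le_iff₀ ha0] at h5
  have hen : 2 * gg δ C * N * a ≤ j * κ ^ 2 := by
    have h5 : (j : ℝ) * κ ^ 2 = (j * a) * ((δ / (4 * C)) ^ 2 * a) := by rw [hκ]; ring
    rw [h5]
    calc 2 * gg δ C * N * a = (δ / 4 * N) * ((δ / (4 * C)) ^ 2 * a) := by unfold gg; ring
      _ ≤ _ := mul_le_mul_of_nonneg_right hja (by positivity)
  have hav := average (E := E) (f := f) I S U g h3
  by_contra hcon
  push Not at hcon
  have hterm : ∀ w ∈ S.powerset, ((JJ E f I S w).card : ℝ) * Ph E (JJ E f I S w) ≤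
      ((JJ E f I S w).card : ℝ) * (Ph E I + gg δ C * N) + gg δ C / 2 ^ m * a * (N / 2) := by
    intro w _
    have p1 : 0 ≤ gg δ C / 2 ^ m * a * (N / 2) := by positivity
    by_cases hb : gg δ C / 2 ^ m * a ≤ (JJ E f I S w).card
    · have h5 := hcon _ hb
      have h6 : ((JJ E f I S w).card : ℝ) * Ph E (JJ E f I S w) ≤
          ((JJ E f I S w).card : ℝ) * (Ph E I + gg δ C * N) :=
        mul_le_mul_of_nonneg_left h5.le (Nat.cast_nonneg _)
      linarith
    · push Not at hb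
      have h5 : ((JJ E f I S w).card : ℝ) * Ph E (JJ E f I S w) ≤
          ((JJ E f I S w).card : ℝ) * (N / 2) :=
        mul_le_mul_of_nonneg_left (Ph_le _) (Nat.cast_nonneg _)
      have h6 : ((JJ E f I S w).card : ℝ) * (N / 2) ≤ gg δ C / 2 ^ m * a * (N / 2) :=
        mul_le_mul_of_nonneg_right hb.le (by positivity)
      have h7 : 0 ≤ Ph E I + gg δ C * N := by
        have : 0 ≤ Ph E I := le_trans (by positivity) hPh
        positivity
      have h8 : 0 ≤ ((JJ E f I S w).card : ℝ) * (Ph E I + gg δ C * N) :=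
        mul_nonneg (Nat.cast_nonneg _) h7
      linarith
  have hsum := sum_le_sum hterm
  rw [sum_add_distrib, ← sum_mul, sum_card_JJ, sum_const, card_powerset, nsmul_eq_mul] at hsum
  have hpow : ((2 ^ S.card : ℕ) : ℝ) ≤ 2 ^ m := by
    push_cast
    exact pow_le_pow_right₀ (by norm_num) (h1.trans hjm)
  have hlast : ((2 ^ S.card : ℕ) : ℝ) * (gg δ C / 2 ^ m * a * (N / 2)) ≤ gg δ C * a * (N / 2) := by
    calc ((2 ^ S.card : ℕ) : ℝ) * (gg δ C / 2 ^ m * a * (N / 2))
        ≤ 2 ^ m * (gg δ C / 2 ^ m * a * (N / 2)) :=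
          mul_le_mul_of_nonneg_right hpow (by positivity)
      _ = gg δ C * a * (N / 2) := by field_simp
  have hpos : 0 < gg δ C * N * a := by positivity
  have e1 : (I.card : ℝ) * (Ph E I + gg δ C * N) = a * Ph E I + gg δ C * N * a := by rw [← ha]; ring
  have e2 : gg δ C * a * (N / 2) = gg δ C * N * a / 2 := by ring
  have e3 : 2 * gg δ C * N * a = 2 * (gg δ C * N * a) := by ring
  rw [← ha] at hav
  linarith

theorem iterate {δ C : ℝ} (hδ : 0 < δ) (hC : 0 < C) (t : ℕ) :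
    ∀ l : ℝ, 0 < l → ∃ N₀ : ℕ, 0 < N₀ ∧
      ∀ (X Y ι : Type) [Fintype X] [Fintype Y] [Fintype ι] (E : X → Y → Prop) (f : X → Y → ι),
      Good E f → N₀ ≤ Fintype.card Y → (Fintype.card ι : ℝ) ≤ C * Fintype.card Y →
      ∀ I : Finset X, l * Fintype.card Y ≤ I.card → δ * Fintype.card Y ≤ Ph E I →
        ∃ J : Finset X, Ph E I + t * gg δ C * Fintype.card Y ≤ Ph E J := by
  induction t with
  | zero =>
    intro l hl
    refine ⟨1, Nat.one_pos, ?_⟩
    intro X Y ι _ _ _ E f h _ _ I _ _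
    exact ⟨I, by simp⟩
  | succ t ih =>
    intro l hl
    obtain ⟨θ, hθ, hstep⟩ := step hδ hC hl
    obtain ⟨N₁, hN₁, hit⟩ := ih (θ * l) (by positivity)
    refine ⟨max N₁ ⌈C / (δ * l)⌉₊, lt_of_lt_of_le hN₁ (le_max_left _ _), ?_⟩
    intro X Y ι _ _ _ E f h hN hk I hI hPh
    have hN1 : N₁ ≤ Fintype.card Y := (le_max_left _ _).trans hN
    have hN2 : C / (δ * l) ≤ (Fintype.card Y : ℝ) :=
      (Nat.le_ceil _).trans (by exact_mod_cast (le_max_right _ _).trans hN)
    have hN0 : 0 < Fintype.card Y := lt_of_lt_of_le hN₁ hN1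
    have hN0' : (0 : ℝ) < Fintype.card Y := by exact_mod_cast hN0
    have hkI : (Fintype.card ι : ℝ) ≤ δ * I.card * Fintype.card Y := by
      refine hk.trans ?_
      refine mul_le_mul_of_nonneg_right ?_ hN0'.le
      rw [div_le_iff₀ (by positivity)] at hN2
      calc C ≤ (Fintype.card Y : ℝ) * (δ * l) := hN2
        _ = δ * (l * Fintype.card Y) := by ring
        _ ≤ δ * I.card := mul_le_mul_of_nonneg_left hI hδ.le
    obtain ⟨J, hJ1, hJ2⟩ := hstep X Y ι E f h hN0 hk I hI hkI hPh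
    have hg := gg_pos hδ hC
    obtain ⟨K, hK⟩ := hit X Y ι E f h hN1 hk J
      (by
        calc θ * l * (Fintype.card Y : ℝ) = θ * (l * Fintype.card Y) := by ring
          _ ≤ θ * I.card := mul_le_mul_of_nonneg_left hI hθ.le
          _ ≤ J.card := hJ1)
      (by
        have : 0 ≤ gg δ C * (Fintype.card Y : ℝ) := by positivity
        linarith)
    refine ⟨K, ?_⟩
    push_cast
    nlinarith [hK, hJ2]

/-- the potential of the whole set of rows is small -/
theorem Ph_small {δ C l : ℝ} (hδ : 0 < δ) (hC : 0 < C) (hl : 0 < l) :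
    ∃ N₀ : ℕ, 0 < N₀ ∧
      ∀ (X Y ι : Type) [Fintype X] [Fintype Y] [Fintype ι] (E : X → Y → Prop) (f : X → Y → ι),
      Good E f → N₀ ≤ Fintype.card Y → (Fintype.card ι : ℝ) ≤ C * Fintype.card Y →
      l * Fintype.card Y ≤ Fintype.card X → Ph E (univ : Finset X) < δ * Fintype.card Y := by
  have hg := gg_pos hδ hC
  obtain ⟨t, ht⟩ := exists_nat_gt (1 / (2 * gg δ C))
  obtain ⟨N₀, hN₀, hit⟩ := iterate hδ hC t l hl
  refine ⟨N₀, hN₀, ?_⟩
  intro X Y ι _ _ _ E f h hN hk hX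
  by_contra hcon
  push Not at hcon
  obtain ⟨J, hJ⟩ := hit X Y ι E f h hN hk univ (by rw [card_univ]; exact hX) hcon
  have hN0' : (0 : ℝ) < Fintype.card Y := by exact_mod_cast lt_of_lt_of_le hN₀ hN
  have h1 := Ph_le (E := E) J
  rw [div_lt_iff₀ (by positivity)] at ht
  have h2 : 0 < δ * (Fintype.card Y : ℝ) := by positivity
  nlinarith [mul_pos hN0' hg]

/-- **The density of a good relation is at most `1/2 + δ`.** -/
theorem density {δ C l : ℝ} (hδ : 0 < δ) (hC : 0 < C) (hl : 0 < l) :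
    ∃ N₀ : ℕ, 0 < N₀ ∧
      ∀ (X Y ι : Type) [Fintype X] [Fintype Y] [Fintype ι] (E : X → Y → Prop) (f : X → Y → ι),
      Good E f → N₀ ≤ Fintype.card Y → (Fintype.card ι : ℝ) ≤ C * Fintype.card Y →
      l * Fintype.card Y ≤ Fintype.card X →
      ∑ y : Y, dg E (univ : Finset X) y < (1 / 2 + δ) * (Fintype.card X * Fintype.card Y) := by
  obtain ⟨N₀, hN₀, hs⟩ := Ph_small (δ := δ / 2) (C := C) (l := l) (by positivity) hC hl
  refine ⟨N₀, hN₀, ?_⟩
  intro X Y ι _ _ _ E f h hN hk hX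
  have h1 := hs X Y ι E f h hN hk hX
  by_contra hcon
  push Not at hcon
  have hN0' : (0 : ℝ) < Fintype.card Y := by exact_mod_cast lt_of_lt_of_le hN₀ hN
  have hX0 : (0 : ℝ) < Fintype.card X := lt_of_lt_of_le (by positivity) hX
  set N : ℝ := (Fintype.card Y : ℝ) with hNd
  set D : ℝ := ∑ y : Y, dd E (univ : Finset X) y with hD
  have e1 : ∑ y : Y, dg E (univ : Finset X) y = Fintype.card X * D := by
    rw [hD, mul_sum]
    refine sum_congr rfl fun y _ => ?_
    rw [← card_mul_dd, card_univ]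
  have h2 : (1 / 2 + δ) * N ≤ D := by
    rw [e1] at hcon
    have : (Fintype.card X : ℝ) * ((1 / 2 + δ) * N) ≤ Fintype.card X * D := by
      calc _ = (1 / 2 + δ) * (Fintype.card X * N) := by ring
        _ ≤ _ := hcon
    exact le_of_mul_le_mul_left this hX0
  have h3 : D ^ 2 ≤ N * ∑ y : Y, dd E (univ : Finset X) y ^ 2 := by
    have := sq_sum_le_card_mul_sum_sq (s := (univ : Finset Y)) (f := fun y => dd E (univ : Finset X) y)
    rw [card_univ] at this
    exact this
  have h4 : Ph E (univ : Finset X) = ∑ y : Y, dd E (univ : Finset X) y ^ 2 - D / 2 := by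
    unfold Ph
    rw [sum_sub_distrib, ← sum_div]
  have h5 : D ^ 2 < N * (δ / 2 * N + D / 2) := by
    refine lt_of_le_of_lt h3 (mul_lt_mul_of_pos_left ?_ hN0')
    linarith
  have h6 : 0 < D := lt_of_lt_of_le (by positivity) h2
  nlinarith [mul_le_mul_of_nonneg_left h2 h6.le, mul_pos hδ hN0', mul_le_mul_of_nonneg_left h2 (by positivity : (0:ℝ) ≤ δ * N)]

end Pool.Agent.H36.CF
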